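import Pool.Agent.H41.AV.Defs

/-!
# `S_QUAD` (helper581, for helper41)
-/

set_option autoImplicit false

namespace Pool.Agent.H581.AV

open Finset Pool.Agent.H41.AV

theorem quad : S_QUAD := by
  intro G _ _ c p S T B ε δ₁ δ₂ hε hp hc hS hT1 hT2 hδ₁ hδ₂
  set P : ℝ := ∑ x, p x ^ 2 with hP
  set t : ℝ := (T.card : ℝ) with ht
  have ht0 : 0 ≤ t := by rw [ht]; exact Nat.cast_nonneg _
  have hP0 : 0 ≤ P := by rw [hP]; exact sum_nonneg fun x _ => sq_nonneg _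
  -- the sum of the squares
  have h1 : ∑ x, (∑ y ∈ T, c x y) ^ 2 ≤ t * (Fintype.card G * B ^ 2) + t ^ 2 * (P + δ₂) := by
    have e1 : ∑ x, (∑ y ∈ T, c x y) ^ 2 = ∑ y ∈ T, ∑ y' ∈ T, ∑ x, c x y * c x y' := by
      have e2 : ∀ x, (∑ y ∈ T, c x y) ^ 2 = ∑ y ∈ T, ∑ y' ∈ T, c x y * c x y' := by
        intro x
        rw [sq, sum_mul_sum]
      rw [sum_congr rfl fun x _ => e2 x, sum_comm]
      refine sum_congr rfl fun y _ => ?_
      rw [sum_comm]
    have e3 : ∀ y ∈ T, ∀ y' ∈ T, ∑ x, c x y * c x y' ≤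
        (if y = y' then Fintype.card G * B ^ 2 else 0) + (P + δ₂) := by
      intro y hy y' hy'
      by_cases h : y = y'
      · rw [if_pos h, ← h]
        have e4 : ∑ x, c x y * c x y ≤ ∑ _x : G, B ^ 2 := by
          refine sum_le_sum fun x _ => ?_
          rw [sq]
          exact mul_le_mul (hc x y).2 (hc x y).2 (hc x y).1 ((hc x y).1.trans (hc x y).2)
        rw [sum_const, card_univ, nsmul_eq_mul] at e4
        linarith
      · rw [if_neg h, zero_add]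
        exact hT2 y hy y' hy' h
    rw [e1]
    calc ∑ y ∈ T, ∑ y' ∈ T, ∑ x, c x y * c x y'
        ≤ ∑ y ∈ T, ∑ y' ∈ T, ((if y = y' then Fintype.card G * B ^ 2 else 0) + (P + δ₂)) :=
          sum_le_sum fun y hy => sum_le_sum fun y' hy' => e3 y hy y' hy'
      _ = ∑ y ∈ T, (Fintype.card G * B ^ 2 + t * (P + δ₂)) := by
          refine sum_congr rfl fun y hy => ?_
          rw [sum_add_distrib, sum_ite_eq, if_pos hy, sum_const, nsmul_eq_mul]
      _ = t * (Fintype.card G * B ^ 2) + t ^ 2 * (P + δ₂) := by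
          rw [sum_const, nsmul_eq_mul]
          ring
  -- the mixed term
  have h2 : t * (P - δ₁) ≤ ∑ x, p x * ∑ y ∈ T, c x y := by
    have e1 : ∑ x, p x * ∑ y ∈ T, c x y = ∑ y ∈ T, ∑ x, p x * c x y := by
      rw [sum_congr rfl fun x _ => mul_sum _ _ _, sum_comm]
    rw [e1]
    have e2 : ∑ _y ∈ T, (P - δ₁) ≤ ∑ y ∈ T, ∑ x, p x * c x y := sum_le_sum fun y hy => hT1 y hy
    rw [sum_const, nsmul_eq_mul] at e2
    exact e2
  have h3 : ∑ x, ((∑ y ∈ T, c x y) - p x * t) ^ 2 =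
      ∑ x, (∑ y ∈ T, c x y) ^ 2 - 2 * t * ∑ x, p x * ∑ y ∈ T, c x y + t ^ 2 * P := by
    rw [hP, mul_sum, mul_sum, ← sum_sub_distrib, ← sum_add_distrib]
    refine sum_congr rfl fun x _ => ?_
    ring
  have h4 : (S.card : ℝ) * (ε * t) ^ 2 ≤ ∑ x, ((∑ y ∈ T, c x y) - p x * t) ^ 2 := by
    have e1 : ∑ x ∈ S, (ε * t) ^ 2 ≤ ∑ x ∈ S, ((∑ y ∈ T, c x y) - p x * t) ^ 2 := by
      refine sum_le_sum fun x hx => ?_
      have e2 : t ≤ ∑ y ∈ T, c x y := by
        have e3 : ∑ _y ∈ T, (1 : ℝ) ≤ ∑ y ∈ T, c x y := sum_le_sum fun y hy => hS x hx y hy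
        rw [sum_const, nsmul_eq_mul, mul_one] at e3
        exact e3
      have e4 : p x * t ≤ (1 - ε) * t := mul_le_mul_of_nonneg_right (hp x).2 ht0
      have e5 : 0 ≤ ε * t := mul_nonneg hε.le ht0
      exact pow_le_pow_left₀ e5 (by linarith) 2
    rw [sum_const, nsmul_eq_mul] at e1
    refine e1.trans ?_
    exact sum_le_sum_of_subset_of_nonneg (subset_univ S) fun x _ _ => sq_nonneg _
  have h5 : 2 * t * (t * (P - δ₁)) ≤ 2 * t * ∑ x, p x * ∑ y ∈ T, c x y :=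
    mul_le_mul_of_nonneg_left h2 (by linarith)
  rw [h3] at h4
  nlinarith [h1, h4, h5]

end Pool.Agent.H581.AV
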